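import Mathlib

/-!
Similar tetrahedra spanned by `n` points of three-space: the lower bound `c * n ^ (5/3)`.

The points form a cubical piece of the integer lattice and the tetrahedra are the images of the
corner `0, e1, e2, e3` under the integral similarities given by integer quaternions.
-/

namespace Pool.Agent.Results.MP_36f34d_co.RotatedCorners

open scoped Classical
open Module

/-- Euclidean three-space. -/
abbrev E3 : Type := EuclideanSpace ℝ (Fin 3)

/-- A tetrahedron: four points that do not lie in a plane. -/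
def IsTetrahedron (S : Finset E3) : Prop := S.card = 4 ∧ ¬ Coplanar ℝ (S : Set E3)

/-- `T` is the image of `S` under a similarity (an isometry followed by a scaling with factor
`c > 0`). -/
def Similar (S T : Finset E3) : Prop :=
  ∃ (e : E3 ≃ᵢ E3) (c : ℝ), 0 < c ∧ (T : Set E3) = (fun x => c • e x) '' (S : Set E3)

/-- The number of four-point subsets of `P` that are tetrahedra similar to `T`. -/
noncomputable def simCount (P T : Finset E3) : ℕ :=
  ((P.powersetCard 4).filter (fun S => IsTetrahedron S ∧ Similar T S)).card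

/-- The largest number of four-point subsets of an `n`-point set that are tetrahedra similar to
one tetrahedron. -/
noncomputable def f (n : ℕ) : ℕ :=
  sSup {k : ℕ | ∃ P T : Finset E3, P.card = n ∧ IsTetrahedron T ∧ k = simCount P T}

/-! ### Boundedness and monotonicity -/

lemma simCount_le (P T : Finset E3) : simCount P T ≤ P.card.choose 4 := by
  unfold simCount
  calc _ ≤ (P.powersetCard 4).card := Finset.card_filter_le _ _
    _ = _ := Finset.card_powersetCard _ _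

lemma simCount_mono {P Q T : Finset E3} (h : P ⊆ Q) : simCount P T ≤ simCount Q T := by
  unfold simCount
  apply Finset.card_le_card
  apply Finset.filter_subset_filter
  exact Finset.powersetCard_mono h

lemma simCount_le_f {P T : Finset E3} (hT : IsTetrahedron T) : simCount P T ≤ f P.card := by
  unfold f
  apply le_csSup
  · refine ⟨P.card.choose 4, ?_⟩
    rintro k ⟨Q, T', hQ, -, rfl⟩
    rw [← hQ]
    exact simCount_le Q T'
  · exact ⟨P, T, rfl, hT, rfl⟩

/-! ### Corners -/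

/-- The corner with apex `p` and arms `u`, `v`, `w`. -/
noncomputable def corner (p u v w : E3) : Finset E3 := {p, p + u, p + v, p + w}

lemma corner_tetra {p : E3} {b : OrthonormalBasis (Fin 3) ℝ E3} {c : ℝ} (hc : 0 < c) :
    IsTetrahedron (corner p (c • b 0) (c • b 1) (c • b 2)) := by
  have hb : LinearIndependent ℝ (fun i => c • b i) := by
    have := b.toBasis.linearIndependent
    simp only [OrthonormalBasis.coe_toBasis] at this
    exact this.units_smul (fun _ => Units.mk0 c hc.ne')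
  have hne : ∀ i, c • b i ≠ 0 := fun i => hb.ne_zero i
  have hinj : Function.Injective (fun i => c • b i) := hb.injective
  have h01 : c • b 0 ≠ c • b 1 := fun h => by
    have := hinj h; exact absurd this (by decide)
  have h02 : c • b 0 ≠ c • b 2 := fun h => by
    have := hinj h; exact absurd this (by decide)
  have h12 : c • b 1 ≠ c • b 2 := fun h => by
    have := hinj h; exact absurd this (by decide)
  refine ⟨?_, ?_⟩
  · unfold corner
    rw [Finset.card_insert_of_notMem, Finset.card_insert_of_notMem, Finset.card_insert_of_notMem,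
      Finset.card_singleton]
    · simpa using h12
    · simp only [Finset.mem_insert, Finset.mem_singleton, add_right_inj, not_or]
      exact ⟨h01, h02⟩
    · simp only [Finset.mem_insert, Finset.mem_singleton, left_eq_add, not_or]
      exact ⟨hne 0, hne 1, hne 2⟩
  · intro hcop
    have hfin : Module.finrank ℝ (vectorSpan ℝ ((corner p (c • b 0) (c • b 1) (c • b 2) :
        Finset E3) : Set E3)) ≤ 2 := (coplanar_iff_finrank_le_two).1 hcop
    have hsub : Submodule.span ℝ (Set.range (fun i => c • b i)) ≤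
        vectorSpan ℝ ((corner p (c • b 0) (c • b 1) (c • b 2) : Finset E3) : Set E3) := by
      rw [Submodule.span_le]
      rintro _ ⟨i, rfl⟩
      have hp : p ∈ ((corner p (c • b 0) (c • b 1) (c • b 2) : Finset E3) : Set E3) := by
        simp [corner]
      have hq : p + c • b i ∈ ((corner p (c • b 0) (c • b 1) (c • b 2) : Finset E3) : Set E3) := by
        fin_cases i <;> simp [corner]
      have := vsub_mem_vectorSpan ℝ hq hp
      simpa using this
    have h3 : Module.finrank ℝ (Submodule.span ℝ (Set.range (fun i => c • b i))) = 3 := by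
      rw [finrank_span_eq_card hb]; rfl
    have := Submodule.finrank_mono hsub
    omega

/-- The standard corner `0, e1, e2, e3`. -/
noncomputable def T0 : Finset E3 :=
  corner 0 ((1 : ℝ) • EuclideanSpace.basisFun (Fin 3) ℝ 0)
    ((1 : ℝ) • EuclideanSpace.basisFun (Fin 3) ℝ 1) ((1 : ℝ) • EuclideanSpace.basisFun (Fin 3) ℝ 2)

lemma T0_tetra : IsTetrahedron T0 := corner_tetra one_pos

lemma corner_similar (p : E3) (b : OrthonormalBasis (Fin 3) ℝ E3) {c : ℝ} (hc : 0 < c) :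
    Similar T0 (corner p (c • b 0) (c • b 1) (c • b 2)) := by
  refine ⟨b.repr.symm.toIsometryEquiv.trans (IsometryEquiv.addRight (c⁻¹ • p)), c, hc, ?_⟩
  have key : ∀ x : E3, c • (b.repr.symm.toIsometryEquiv.trans (IsometryEquiv.addRight (c⁻¹ • p))) x
      = p + c • b.repr.symm x := by
    intro x
    simp only [IsometryEquiv.trans_apply, IsometryEquiv.addRight_apply, smul_add,
      smul_inv_smul₀ hc.ne']
    rw [add_comm]; rfl
  have hs : ∀ i : Fin 3, b.repr.symm ((EuclideanSpace.basisFun (Fin 3) ℝ) i) = b i := by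
    intro i
    rw [EuclideanSpace.basisFun_apply]
    exact b.repr_symm_single i
  simp only [T0, corner, key, Finset.coe_insert, Finset.coe_singleton, Set.image_insert_eq,
    Set.image_singleton, map_zero, smul_zero, add_zero, zero_add, one_smul, hs]

/-! ### Integral similarities -/

/-- Integer triples. -/
abbrev Z3 : Type := ℤ × ℤ × ℤ

/-- The lattice point with given integer coordinates. -/
noncomputable def pt (x : Z3) : E3 := !₂[(x.1 : ℝ), (x.2.1 : ℝ), (x.2.2 : ℝ)]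

lemma pt_injective : Function.Injective pt := by
  intro x y h
  have h0 := congrArg (fun z : E3 => z 0) h
  have h1 := congrArg (fun z : E3 => z 1) h
  have h2 := congrArg (fun z : E3 => z 2) h
  simp only [pt, PiLp.toLp_apply, Matrix.cons_val_zero, Matrix.cons_val_one, Matrix.cons_val] at h0 h1 h2
  ext
  · exact_mod_cast h0
  · exact_mod_cast h1
  · exact_mod_cast h2

lemma pt_add (x y : Z3) : pt (x + y) = pt x + pt y := by
  ext i
  fin_cases i <;> simp [pt]

/-- The images of the three unit vectors under the integral similarity given by the quaternion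
`a + b i + c j + d k`. -/
def r1 (a b c d : ℤ) : Z3 := (a^2 + b^2 - c^2 - d^2, 2*(b*c + a*d), 2*(b*d - a*c))
/-- Second vector. -/
def r2 (a b c d : ℤ) : Z3 := (2*(b*c - a*d), a^2 - b^2 + c^2 - d^2, 2*(c*d + a*b))
/-- Third vector. -/
def r3 (a b c d : ℤ) : Z3 := (2*(b*d + a*c), 2*(c*d - a*b), a^2 - b^2 - c^2 + d^2)

lemma exists_basis (a b c d : ℤ) (hN : 0 < a^2 + b^2 + c^2 + d^2) :
    ∃ B : OrthonormalBasis (Fin 3) ℝ E3,
      ((a^2 + b^2 + c^2 + d^2 : ℤ) : ℝ) • B 0 = pt (r1 a b c d) ∧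
      ((a^2 + b^2 + c^2 + d^2 : ℤ) : ℝ) • B 1 = pt (r2 a b c d) ∧
      ((a^2 + b^2 + c^2 + d^2 : ℤ) : ℝ) • B 2 = pt (r3 a b c d) := by
  set N : ℝ := ((a^2 + b^2 + c^2 + d^2 : ℤ) : ℝ) with hNdef
  have hNpos : (0 : ℝ) < N := by rw [hNdef]; exact_mod_cast hN
  have hNe : N = (a:ℝ)^2 + (b:ℝ)^2 + (c:ℝ)^2 + (d:ℝ)^2 := by rw [hNdef]; push_cast; ring
  let v : Fin 3 → E3 := ![N⁻¹ • pt (r1 a b c d), N⁻¹ • pt (r2 a b c d), N⁻¹ • pt (r3 a b c d)]
  have hv : Orthonormal ℝ v := by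
    rw [orthonormal_iff_ite]
    intro i j
    have e : ∀ x y : Z3, inner ℝ (N⁻¹ • pt x) (N⁻¹ • pt y) =
        ((x.1 : ℝ) * y.1 + x.2.1 * y.2.1 + x.2.2 * y.2.2) / N^2 := by
      intro x y
      simp only [pt, PiLp.inner_apply, Fin.sum_univ_three, PiLp.smul_apply, smul_eq_mul,
        Matrix.cons_val_zero, Matrix.cons_val_one, Matrix.cons_val]
      simp only [RCLike.inner_apply, conj_trivial]
      field_simp
    have hN2 : N^2 ≠ 0 := by positivity
    fin_cases i <;> fin_cases j <;>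
      simp only [v, Fin.zero_eta, Fin.mk_one, Fin.reduceFinMk, Matrix.cons_val_zero,
        Matrix.cons_val_one, Matrix.cons_val, e, r1, r2, r3] <;>
      rw [div_eq_iff hN2, hNe] <;> push_cast <;> simp <;> ring
  have hcard : Module.finrank ℝ E3 = Fintype.card (Fin 3) := by simp
  obtain ⟨B, hB⟩ := Orthonormal.exists_orthonormalBasis_extension_of_card_eq hcard
    (v := v) (s := Set.univ) (hv.comp _ Subtype.val_injective)
  refine ⟨B, ?_, ?_, ?_⟩
  · rw [hB 0 (Set.mem_univ _)]; simp [v, smul_inv_smul₀ hNpos.ne']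
  · rw [hB 1 (Set.mem_univ _)]; simp [v, smul_inv_smul₀ hNpos.ne']
  · rw [hB 2 (Set.mem_univ _)]; simp [v, smul_inv_smul₀ hNpos.ne']

/-- The integer corner. -/
def icorner (p : Z3) (a b c d : ℤ) : Finset Z3 :=
  {p, p + r1 a b c d, p + r2 a b c d, p + r3 a b c d}

lemma icorner_image (p : Z3) (a b c d : ℤ) :
    (icorner p a b c d).image pt =
      corner (pt p) (pt (r1 a b c d)) (pt (r2 a b c d)) (pt (r3 a b c d)) := by
  simp [icorner, corner, Finset.image_insert, pt_add]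

lemma icorner_good (p : Z3) (a b c d : ℤ) (hN : 0 < a^2 + b^2 + c^2 + d^2) :
    IsTetrahedron ((icorner p a b c d).image pt) ∧ Similar T0 ((icorner p a b c d).image pt) := by
  obtain ⟨B, h0, h1, h2⟩ := exists_basis a b c d hN
  have hNpos : (0 : ℝ) < ((a^2 + b^2 + c^2 + d^2 : ℤ) : ℝ) := by exact_mod_cast hN
  rw [icorner_image, ← h0, ← h1, ← h2]
  exact ⟨corner_tetra hNpos, corner_similar _ B hNpos⟩

/-! ### Size bounds and injectivity -/

/-- The admissible quaternions at scale `K`. -/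
def Adm (K a b c d : ℤ) : Prop :=
  10 * K ≤ a ∧ a < 11 * K ∧ 0 ≤ b ∧ b < K ∧ 0 ≤ c ∧ c < K ∧ 0 ≤ d ∧ d < K

lemma adm_bounds {K a b c d : ℤ} (h : Adm K a b c d) :
    0 ≤ a * b ∧ a * b ≤ 11 * K^2 ∧ 0 ≤ a * c ∧ a * c ≤ 11 * K^2 ∧ 0 ≤ a * d ∧ a * d ≤ 11 * K^2 ∧
    0 ≤ b * c ∧ b * c ≤ K^2 ∧ 0 ≤ b * d ∧ b * d ≤ K^2 ∧ 0 ≤ c * d ∧ c * d ≤ K^2 ∧
    100 * K^2 ≤ a^2 ∧ a^2 ≤ 121 * K^2 ∧ b^2 ≤ K^2 ∧ c^2 ≤ K^2 ∧ d^2 ≤ K^2 ∧
    0 ≤ b^2 ∧ 0 ≤ c^2 ∧ 0 ≤ d^2 ∧ 0 < K := by
  obtain ⟨h1, h2, h3, h4, h5, h6, h7, h8⟩ := h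
  have hK : 0 < K := by omega
  have ha : 0 ≤ a := by omega
  refine ⟨by positivity, ?_, by positivity, ?_, by positivity, ?_, by positivity, ?_,
    by positivity, ?_, by positivity, ?_, ?_, ?_, ?_, ?_, ?_, by positivity, by positivity,
    by positivity, hK⟩
  all_goals nlinarith

lemma r_bounds {K a b c d : ℤ} (h : Adm K a b c d) :
    (98 * K^2 ≤ (r1 a b c d).1 ∧ (r1 a b c d).1 ≤ 122 * K^2 ∧
      -24 * K^2 ≤ (r1 a b c d).2.1 ∧ (r1 a b c d).2.1 ≤ 24 * K^2 ∧
      -24 * K^2 ≤ (r1 a b c d).2.2 ∧ (r1 a b c d).2.2 ≤ 24 * K^2) ∧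
    (98 * K^2 ≤ (r2 a b c d).2.1 ∧ (r2 a b c d).2.1 ≤ 122 * K^2 ∧
      -24 * K^2 ≤ (r2 a b c d).1 ∧ (r2 a b c d).1 ≤ 24 * K^2 ∧
      -24 * K^2 ≤ (r2 a b c d).2.2 ∧ (r2 a b c d).2.2 ≤ 24 * K^2) ∧
    (98 * K^2 ≤ (r3 a b c d).2.2 ∧ (r3 a b c d).2.2 ≤ 122 * K^2 ∧
      -24 * K^2 ≤ (r3 a b c d).1 ∧ (r3 a b c d).1 ≤ 24 * K^2 ∧
      -24 * K^2 ≤ (r3 a b c d).2.1 ∧ (r3 a b c d).2.1 ≤ 24 * K^2) := by
  obtain ⟨h1, h2, h3, h4, h5, h6, h7, h8, h9, h10, h11, h12, h13, h14, h15, h16, h17, h18, h19,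
    h20, h21⟩ := adm_bounds h
  simp only [r1, r2, r3]
  refine ⟨⟨?_, ?_, ?_, ?_, ?_, ?_⟩, ⟨?_, ?_, ?_, ?_, ?_, ?_⟩, ⟨?_, ?_, ?_, ?_, ?_, ?_⟩⟩ <;> linarith

/-- Coordinate sum. -/
def sg (x : Z3) : ℤ := x.1 + x.2.1 + x.2.2

lemma sg_add (x y : Z3) : sg (x + y) = sg x + sg y := by
  simp only [sg, Prod.fst_add, Prod.snd_add]; ring

lemma sg_le_of_mem {K a b c d : ℤ} (h : Adm K a b c d) {p x : Z3} (hx : x ∈ icorner p a b c d) :
    x = p ∨ sg p < sg x := by
  obtain ⟨⟨a1, a2, a3, a4, a5, a6⟩, ⟨b1, b2, b3, b4, b5, b6⟩, ⟨c1, c2, c3, c4, c5, c6⟩⟩ :=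
    r_bounds h
  have hK : 0 < K^2 := by
    have : 0 < K := by obtain ⟨h1, h2, h3, h4, h5, h6, h7, h8⟩ := h; omega
    positivity
  simp only [icorner, Finset.mem_insert, Finset.mem_singleton] at hx
  rcases hx with rfl | rfl | rfl | rfl
  · exact Or.inl rfl
  all_goals
    right
    rw [sg_add]
    unfold sg
    linarith

lemma not_lt_of_prod {a d a' d' : ℤ} (had : a * d = a' * d') (hdd : a^2 - d^2 = a'^2 - d'^2)
    (ha : 0 < a) (hd : 0 ≤ d) (hd' : 0 ≤ d') : ¬ a < a' := by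
  intro hlt
  have hle : d' ≤ d := by
    by_contra hcon
    push Not at hcon
    nlinarith
  nlinarith

lemma eq_of_prod {a d a' d' : ℤ} (had : a * d = a' * d') (hdd : a^2 - d^2 = a'^2 - d'^2)
    (ha : 0 < a) (ha' : 0 < a') (hd : 0 ≤ d) (hd' : 0 ≤ d') : a = a' :=
  le_antisymm (not_lt.1 (not_lt_of_prod had.symm hdd.symm ha' hd' hd))
    (not_lt.1 (not_lt_of_prod had hdd ha hd hd'))

lemma icorner_inj {K a b c d a' b' c' d' : ℤ} {p p' : Z3} (h : Adm K a b c d)
    (h' : Adm K a' b' c' d') (heq : icorner p a b c d = icorner p' a' b' c' d') :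
    p = p' ∧ a = a' ∧ b = b' ∧ c = c' ∧ d = d' := by
  have hpp : p = p' := by
    have m1 : p ∈ icorner p' a' b' c' d' := heq ▸ (by simp [icorner])
    have m2 : p' ∈ icorner p a b c d := heq ▸ (by simp [icorner])
    rcases sg_le_of_mem h' m1 with e | l1
    · exact e
    · rcases sg_le_of_mem h m2 with e | l2
      · exact e.symm
      · omega
  subst hpp
  have hK : 0 < K^2 := by
    have : 0 < K := by obtain ⟨h1, h2, h3, h4, h5, h6, h7, h8⟩ := h; omega
    positivity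
  obtain ⟨⟨a1, a2, a3, a4, a5, a6⟩, ⟨b1, b2, b3, b4, b5, b6⟩, ⟨c1, c2, c3, c4, c5, c6⟩⟩ :=
    r_bounds h
  obtain ⟨⟨A1, A2, A3, A4, A5, A6⟩, ⟨B1, B2, B3, B4, B5, B6⟩, ⟨C1, C2, C3, C4, C5, C6⟩⟩ :=
    r_bounds h'
  have e1 : r1 a b c d = r1 a' b' c' d' := by
    have m : p + r1 a b c d ∈ icorner p a' b' c' d' := heq ▸ (by simp [icorner])
    simp only [icorner, Finset.mem_insert, Finset.mem_singleton, add_eq_left,
      add_right_inj] at m
    rcases m with m | m | m | m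
    · have := congrArg Prod.fst m
      simp only [Prod.fst_zero] at this
      linarith
    · exact m
    · have := congrArg Prod.fst m
      linarith
    · have := congrArg Prod.fst m
      linarith
  have e2 : r2 a b c d = r2 a' b' c' d' := by
    have m : p + r2 a b c d ∈ icorner p a' b' c' d' := heq ▸ (by simp [icorner])
    simp only [icorner, Finset.mem_insert, Finset.mem_singleton, add_eq_left,
      add_right_inj] at m
    rcases m with m | m | m | m
    · have := congrArg (fun z : Z3 => z.2.1) m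
      simp only [Prod.fst_zero, Prod.snd_zero] at this
      linarith
    · have := congrArg (fun z : Z3 => z.2.1) m
      linarith
    · exact m
    · have := congrArg (fun z : Z3 => z.2.1) m
      linarith
  have e3 : r3 a b c d = r3 a' b' c' d' := by
    have m : p + r3 a b c d ∈ icorner p a' b' c' d' := heq ▸ (by simp [icorner])
    simp only [icorner, Finset.mem_insert, Finset.mem_singleton, add_eq_left,
      add_right_inj] at m
    rcases m with m | m | m | m
    · have := congrArg (fun z : Z3 => z.2.2) m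
      simp only [Prod.snd_zero] at this
      linarith
    · have := congrArg (fun z : Z3 => z.2.2) m
      linarith
    · have := congrArg (fun z : Z3 => z.2.2) m
      linarith
    · exact m
  simp only [r1, r2, r3, Prod.mk.injEq] at e1 e2 e3
  obtain ⟨e11, e12, e13⟩ := e1
  obtain ⟨e21, e22, e23⟩ := e2
  obtain ⟨e31, e32, e33⟩ := e3
  have hab : a * b = a' * b' := by linarith
  have hac : a * c = a' * c' := by linarith
  have had : a * d = a' * d' := by linarith
  have hdd : a^2 - d^2 = a'^2 - d'^2 := by linarith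
  obtain ⟨g1, g2, g3, g4, g5, g6, g7, g8⟩ := h
  obtain ⟨k1, k2, k3, k4, k5, k6, k7, k8⟩ := h'
  have haa : a = a' := eq_of_prod had hdd (by omega) (by omega) g7 k7
  subst haa
  have ha0 : a ≠ 0 := by omega
  exact ⟨rfl, rfl, mul_left_cancel₀ ha0 hab, mul_left_cancel₀ ha0 hac, mul_left_cancel₀ ha0 had⟩

/-! ### The count -/

/-- The box of side `3 M` in the integer lattice, `M = 122 K ^ 2`. -/
noncomputable def box (K : ℤ) : Finset Z3 :=
  Finset.Ico 0 (366 * K^2) ×ˢ Finset.Ico 0 (366 * K^2) ×ˢ Finset.Ico 0 (366 * K^2)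

/-- The inner box. -/
noncomputable def inner0 (K : ℤ) : Finset Z3 :=
  Finset.Ico (122 * K^2) (244 * K^2) ×ˢ Finset.Ico (122 * K^2) (244 * K^2) ×ˢ
    Finset.Ico (122 * K^2) (244 * K^2)

/-- The quaternions used. -/
noncomputable def quat (K : ℤ) : Finset (ℤ × ℤ × ℤ × ℤ) :=
  Finset.Ico (10 * K) (11 * K) ×ˢ Finset.Ico 0 K ×ˢ Finset.Ico 0 K ×ˢ Finset.Ico 0 K

lemma box_card (K : ℕ) : (box K).card = (366 * K^2)^3 := by
  simp only [box, Finset.card_product, Int.card_Ico, sub_zero]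
  have : ((366 * (K:ℤ)^2)).toNat = 366 * K^2 := by
    have h : (366 * (K:ℤ)^2) = ((366 * K^2 : ℕ) : ℤ) := by push_cast; ring
    rw [h, Int.toNat_natCast]
  rw [this]; ring

lemma inner0_card (K : ℕ) : (inner0 K).card = (122 * K^2)^3 := by
  simp only [inner0, Finset.card_product, Int.card_Ico]
  have : ((244 * (K:ℤ)^2 - 122 * (K:ℤ)^2)).toNat = 122 * K^2 := by
    have h : (244 * (K:ℤ)^2 - 122 * (K:ℤ)^2) = ((122 * K^2 : ℕ) : ℤ) := by push_cast; ring
    rw [h, Int.toNat_natCast]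
  rw [this]; ring

lemma quat_card (K : ℕ) : (quat K).card = K^4 := by
  simp only [quat, Finset.card_product, Int.card_Ico, sub_zero, Int.toNat_natCast]
  have : ((11 * (K:ℤ) - 10 * (K:ℤ))).toNat = K := by
    have h : (11 * (K:ℤ) - 10 * (K:ℤ)) = (K : ℤ) := by ring
    rw [h, Int.toNat_natCast]
  rw [this]; ring

lemma adm_of_mem {K : ℤ} {q : ℤ × ℤ × ℤ × ℤ} (h : q ∈ quat K) :
    Adm K q.1 q.2.1 q.2.2.1 q.2.2.2 := by
  simp only [quat, Finset.mem_product, Finset.mem_Ico] at h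
  obtain ⟨⟨h1, h2⟩, ⟨h3, h4⟩, ⟨h5, h6⟩, ⟨h7, h8⟩⟩ := h
  exact ⟨h1, h2, h3, h4, h5, h6, h7, h8⟩

lemma icorner_subset {K : ℤ} {p : Z3} (hp : p ∈ inner0 K) {a b c d : ℤ} (h : Adm K a b c d) :
    icorner p a b c d ⊆ box K := by
  obtain ⟨⟨a1, a2, a3, a4, a5, a6⟩, ⟨b1, b2, b3, b4, b5, b6⟩, ⟨c1, c2, c3, c4, c5, c6⟩⟩ :=
    r_bounds h
  have hK : 0 < K^2 := by
    have : 0 < K := by obtain ⟨h1, h2, h3, h4, h5, h6, h7, h8⟩ := h; omega
    positivity
  simp only [inner0, Finset.mem_product, Finset.mem_Ico] at hp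
  obtain ⟨⟨p1, p2⟩, ⟨p3, p4⟩, ⟨p5, p6⟩⟩ := hp
  intro x hx
  simp only [icorner, Finset.mem_insert, Finset.mem_singleton] at hx
  simp only [box, Finset.mem_product, Finset.mem_Ico]
  rcases hx with rfl | rfl | rfl | rfl
  · refine ⟨⟨?_, ?_⟩, ⟨?_, ?_⟩, ⟨?_, ?_⟩⟩ <;> linarith
  all_goals
    simp only [Prod.fst_add, Prod.snd_add]
    refine ⟨⟨?_, ?_⟩, ⟨?_, ?_⟩, ⟨?_, ?_⟩⟩ <;> linarith

/-- The point set. -/
noncomputable def PK (K : ℕ) : Finset E3 := (box K).image pt

lemma PK_card (K : ℕ) : (PK K).card = (366 * K^2)^3 := by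
  rw [PK, Finset.card_image_of_injective _ pt_injective, box_card]

lemma count (K : ℕ) : (122 * K^2)^3 * K^4 ≤ simCount (PK K) T0 := by
  have hcard : (inner0 (K:ℤ) ×ˢ quat (K:ℤ)).card = (122 * K^2)^3 * K^4 := by
    rw [Finset.card_product, inner0_card, quat_card]
  rw [← hcard]
  unfold simCount
  refine Finset.card_le_card_of_injOn
    (fun z => (icorner z.1 z.2.1 z.2.2.1 z.2.2.2.1 z.2.2.2.2).image pt) ?_ ?_
  · rintro ⟨p, q⟩ hz
    simp only [Finset.coe_product, Set.mem_prod, Finset.mem_coe] at hz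
    obtain ⟨hp, hq⟩ := hz
    have hadm := adm_of_mem hq
    have hb := adm_bounds hadm
    have hN : 0 < q.1^2 + q.2.1^2 + q.2.2.1^2 + q.2.2.2^2 := by
      obtain ⟨h1, h2, h3, h4, h5, h6, h7, h8, h9, h10, h11, h12, h13, h14, h15, h16, h17, h18,
        h19, h20, h21⟩ := hb
      have : 0 < (K:ℤ)^2 := by positivity
      linarith
    have hg := icorner_good p q.1 q.2.1 q.2.2.1 q.2.2.2 hN
    simp only [Finset.coe_filter, Set.mem_ofPred_eq, Finset.mem_powersetCard]
    exact ⟨⟨Finset.image_subset_image (icorner_subset hp hadm), hg.1.1⟩, hg⟩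
  · rintro ⟨p, q⟩ hz ⟨p', q'⟩ hz' heq
    simp only [Finset.coe_product, Set.mem_prod, Finset.mem_coe] at hz hz'
    have heq' : icorner p q.1 q.2.1 q.2.2.1 q.2.2.2 = icorner p' q'.1 q'.2.1 q'.2.2.1 q'.2.2.2 :=
      Finset.image_injective pt_injective heq
    obtain ⟨e1, e2, e3, e4, e5⟩ := icorner_inj (adm_of_mem hz.2) (adm_of_mem hz'.2) heq'
    ext1
    · exact e1
    · exact Prod.ext e2 (Prod.ext e3 (Prod.ext e4 e5))

lemma f_ge {n K : ℕ} (h : (366 * K^2)^3 ≤ n) : (122 * K^2)^3 * K^4 ≤ f n := by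
  have hc : (PK K).card ≤ n := by rw [PK_card]; exact h
  obtain ⟨Q, hQ, hQn⟩ := Infinite.exists_superset_card_eq (PK K) n hc
  calc (122 * K^2)^3 * K^4 ≤ simCount (PK K) T0 := count K
    _ ≤ simCount Q T0 := simCount_mono hQ
    _ ≤ f Q.card := simCount_le_f T0_tetra
    _ = f n := by rw [hQn]

/-- Among `n` points of three-space there can be `c * n ^ (5/3)` four-point subsets that are
pairwise similar tetrahedra. -/
theorem result :
    ∃ c : ℝ, 0 < c ∧ ∃ N : ℕ, ∀ n : ℕ, N ≤ n → c * (n : ℝ) ^ (5 / 3 : ℝ) ≤ (f n : ℝ) := by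
  refine ⟨122 ^ 3 / 1464 ^ 5, by positivity, 366 ^ 3, ?_⟩
  intro n hn
  have hex : ∃ k : ℕ, n < (366 * k ^ 2) ^ 3 := by
    refine ⟨n + 1, ?_⟩
    nlinarith [Nat.zero_le n, pow_pos (Nat.succ_pos n) 2, pow_pos (Nat.succ_pos n) 3,
      Nat.le_self_pow (n := 6) (by norm_num) (n + 1)]
  obtain ⟨K, hK1, hKn, hnK⟩ : ∃ K : ℕ, 1 ≤ K ∧ (366 * K ^ 2) ^ 3 ≤ n ∧
      n < (366 * (K + 1) ^ 2) ^ 3 := by
    have hspec := Nat.find_spec hex
    have h0 : Nat.find hex ≠ 0 := by
      intro h; rw [h] at hspec; simp at hspec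
    have h1 : Nat.find hex ≠ 1 := by
      intro h; rw [h] at hspec; norm_num at hspec hn; omega
    refine ⟨Nat.find hex - 1, by omega, ?_, ?_⟩
    · exact not_lt.1 (Nat.find_min hex (by omega))
    · have : Nat.find hex - 1 + 1 = Nat.find hex := by omega
      rw [this]; exact hspec
  have hf := f_ge hKn
  have hfR : ((122 : ℝ) * (K : ℝ) ^ 2) ^ 3 * (K : ℝ) ^ 4 ≤ (f n : ℝ) := by exact_mod_cast hf
  have hKR : (1 : ℝ) ≤ (K : ℝ) := by exact_mod_cast hK1
  have hB : (n : ℝ) ^ (5 / 3 : ℝ) ≤ (1464 * (K : ℝ) ^ 2) ^ 5 := by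
    have hle : (n : ℝ) ≤ (1464 * (K : ℝ) ^ 2) ^ 3 := by
      have h1 : (n : ℝ) ≤ (366 * ((K : ℝ) + 1) ^ 2) ^ 3 := by exact_mod_cast hnK.le
      refine h1.trans ?_
      gcongr ?_ ^ 3
      nlinarith
    calc (n : ℝ) ^ (5 / 3 : ℝ) ≤ ((1464 * (K : ℝ) ^ 2) ^ 3) ^ (5 / 3 : ℝ) := by
          gcongr
      _ = (1464 * (K : ℝ) ^ 2) ^ 5 := by
          rw [← Real.rpow_natCast, ← Real.rpow_mul (by positivity), ← Real.rpow_natCast]
          norm_num
  calc 122 ^ 3 / 1464 ^ 5 * (n : ℝ) ^ (5 / 3 : ℝ)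
      ≤ 122 ^ 3 / 1464 ^ 5 * (1464 * (K : ℝ) ^ 2) ^ 5 := by gcongr
    _ = ((122 : ℝ) * (K : ℝ) ^ 2) ^ 3 * (K : ℝ) ^ 4 := by ring
    _ ≤ (f n : ℝ) := hfR

end Pool.Agent.Results.MP_36f34d_co.RotatedCorners
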